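import Mathlib
import Pool.Agent.Helper28.FX.Meas
import Pool.Agent.Helper30.FX.WeakMixing
import Pool.Agent.Helper32.FX.FiniteCover
import Pool.Agent.Helper39.FX.CircleApi
import Pool.Agent.Helper51.FX.Bohr
import Pool.Agent.Helper61.FX.MeanErg
import Pool.Agent.Helper65.FX.ApproxPE
import Pool.Agent.Helper67.FX.F3
import Pool.Agent.Helper78.FX.Conj
import Pool.Agent.Helper88.FX.Dens

set_option autoImplicit false
set_option linter.all false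
open MeasureTheory Filter Topology Helper17.LevelSets
open scoped InnerProductSpace ComplexConjugate ENNReal

/-! Proved pieces of project FX, level 0. -/

namespace Helper58.FX.St
open Helper58.FX

/-! ## A. Abstract Hilbert space -/

section Hilbert

variable {H : Type*} [NormedAddCommGroup H] [InnerProductSpace ℂ H] [CompleteSpace H]
  {U V : H →ₗᵢ[ℂ] H}

/-- FX-1 -/
theorem weak_mixing (hUV : Commute U V) {w : H} (hw : w ∈ (Hc U V)ᗮ) (g : H) :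
    Tendsto (mean (fun s => ‖⟪g, act U V s w⟫_ℂ‖ ^ 2)) atTop (𝓝 0) := by
  exact Pool.Agent.Helper30.FX.weak_mixing hUV hw g

/-- FX-2 -/
theorem bohr (hUV : Commute U V) {v : H} (hv : v ∈ Hc U V) {δ : ℝ} (hδ : 0 < δ) :
    ∃ d : ℝ, 0 < d ∧ Low {s | ‖act U V s v - v‖ ≤ δ} d := by
  exact Helper51.FX.bohr hUV hv hδ

/-- FX-3 -/
theorem act_mem_Hc (hUV : Commute U V) (s : ℕ × ℕ) {v : H} (hv : v ∈ Hc U V) :
    act U V s v ∈ Hc U V := by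
  exact Helper58.FX.act_mem_Hc hUV s hv

/-- FX-3 -/
theorem act_mem_Hc_orth (hUV : Commute U V) (s : ℕ × ℕ) {w : H} (hw : w ∈ (Hc U V)ᗮ) :
    act U V s w ∈ (Hc U V)ᗮ := by
  exact Helper58.FX.act_mem_Hc_orth hUV s hw

/-- FX-3 -/
theorem PP_act (hUV : Commute U V) (s : ℕ × ℕ) (v : H) :
    PP U V (act U V s v) = act U V s (PP U V v) := by
  exact Helper58.FX.PP_act hUV s v

/-- FX-4 -/
theorem mean_ergodic (hUV : Commute U V) {α β : ℂ} (hα : ‖α‖ = 1) (hβ : ‖β‖ = 1) (v : H) :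
    Tendsto (fun N : ℕ => ((N : ℂ) ^ 2)⁻¹ •
      ∑ s ∈ box N, ((conj α) ^ s.1 * (conj β) ^ s.2) • act U V s v) atTop
      (𝓝 (PE U V α β v)) := by
  exact Pool.Agent.Helper61.FX.mean_ergodic hUV hα hβ v

/-- FX-5 -/
theorem approx_PE (v : H) {δ : ℝ} (hδ : 0 < δ) :
    ∃ Λ : Finset (ℂ × ℂ), (∀ l ∈ Λ, ‖l.1‖ = 1 ∧ ‖l.2‖ = 1) ∧
      ‖PP U V v‖ ^ 2 - δ ≤ ∑ l ∈ Λ, ‖PE U V l.1 l.2 v‖ ^ 2 := by
  exact Helper65.FX.approx_PE v hδ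

/-- FX-5 -/
theorem bessel_PE (v : H) (Λ : Finset (ℂ × ℂ)) :
    ∑ l ∈ Λ, ‖PE U V l.1 l.2 v‖ ^ 2 ≤ ‖PP U V v‖ ^ 2 := by
  exact Helper65.FX.bessel_PE v Λ

end Hilbert

/-! ## B. Densities -/

/-- FX-7 -/
theorem mean_pick {a : ℕ × ℕ → ℝ} (ha : ∀ s, 0 ≤ a s) (h : Tendsto (mean a) atTop (𝓝 0))
    {Q : Set (ℕ × ℕ)} {d : ℝ} (hd : 0 < d) (hQ : Fre Q d) {η : ℝ} (hη : 0 < η) :
    ∃ s ∈ Q, a s < η := by
  exact Pool.Agent.Helper88.FX.mean_pick ha h hd hQ hη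

/-- FX-7 -/
theorem up_of_mean {a : ℕ × ℕ → ℝ} (ha : ∀ s, 0 ≤ a s) (h : Tendsto (mean a) atTop (𝓝 0))
    {η ε : ℝ} (hη : 0 < η) (hε : 0 < ε) : Up {s | η ≤ a s} ε := by
  exact Pool.Agent.Helper88.FX.up_of_mean ha h hη hε

/-- FX-7 -/
theorem up_mono {Q Q' : Set (ℕ × ℕ)} {ε ε' : ℝ} (h : Q ⊆ Q') (hε : ε' ≤ ε) (hQ : Up Q' ε') :
    Up Q ε := by
  exact Pool.Agent.Helper88.FX.up_mono h hε hQ

/-- FX-7 -/
theorem up_union {Q Q' : Set (ℕ × ℕ)} {ε ε' : ℝ} (hQ : Up Q ε) (hQ' : Up Q' ε') :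
    Up (Q ∪ Q') (ε + ε') := by
  exact Pool.Agent.Helper88.FX.up_union hQ hQ'

/-- FX-7 -/
theorem up_biUnion {ι : Type*} (F : Finset ι) (Q : ι → Set (ℕ × ℕ)) (ε : ι → ℝ)
    (h : ∀ i ∈ F, Up (Q i) (ε i)) : Up (⋃ i ∈ F, Q i) (∑ i ∈ F, ε i) := by
  exact Pool.Agent.Helper88.FX.up_biUnion F Q ε h

/-- FX-7 -/
theorem up_double {Q : Set (ℕ × ℕ)} {ε : ℝ} (hQ : Up Q ε) :
    Up {s : ℕ × ℕ | (s.1 + s.1, s.2 + s.2) ∈ Q} (4 * ε) := by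
  exact Pool.Agent.Helper88.FX.up_double hQ

/-- FX-7 -/
theorem low_diff {Q Q' : Set (ℕ × ℕ)} {d ε : ℝ} (hQ : Low Q d) (hQ' : Up Q' ε) :
    Low (Q \ Q') (d - ε) := by
  exact Pool.Agent.Helper88.FX.low_diff hQ hQ'

/-- FX-7 -/
theorem up_finite {Q : Set (ℕ × ℕ)} (hQ : Q.Finite) {ε : ℝ} (hε : 0 < ε) : Up Q ε := by
  exact Pool.Agent.Helper88.FX.up_finite hQ hε

/-- FX-7 -/
theorem pigeon {ι : Type*} {C : Set ι} (hC : C.Finite) {Q : Set (ℕ × ℕ)} (f : ℕ × ℕ → ι)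
    (hf : ∀ s ∈ Q, f s ∈ C) {d : ℝ} (hd : 0 < d) (hQ : Low Q d) :
    ∃ c ∈ C, ∃ d' : ℝ, 0 < d' ∧ Fre {s | s ∈ Q ∧ f s = c} d' := by
  exact Pool.Agent.Helper88.FX.pigeon hC f hf hd hQ

/-! ## C. The circle -/

section Circle

variable {μ : Measure Tor}

/-- FX-9 -/
theorem commute_UU (h2 : MeasurePreserving (T 2) μ μ) (h3 : MeasurePreserving (T 3) μ μ) :
    Commute (UU h2) (UU h3) := by
  exact Helper39.FX.commute_UU h2 h3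

/-- FX-9 -/
theorem act_ev [IsProbabilityMeasure μ] (h2 : MeasurePreserving (T 2) μ μ)
    (h3 : MeasurePreserving (T 3) μ μ) (s : ℕ × ℕ) (n : ℤ) :
    act (UU h2) (UU h3) s (ev μ n) = ev μ (sc s * n) := by
  exact Helper39.FX.act_ev h2 h3 s n

/-- FX-9 -/
theorem act_MM [IsProbabilityMeasure μ] (h2 : MeasurePreserving (T 2) μ μ)
    (h3 : MeasurePreserving (T 3) μ μ) (s : ℕ × ℕ) (n : ℤ) :
    act (UU h2) (UU h3) s * MM μ n = MM μ (sc s * n) * act (UU h2) (UU h3) s := by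
  exact Helper39.FX.act_MM h2 h3 s n

/-- FX-9 -/
theorem MM_zero : MM μ 0 = 1 := by
  exact Helper39.FX.MM_zero 

/-- FX-9 -/
theorem MM_add (a b : ℤ) : MM μ (a + b) = MM μ a * MM μ b := by
  exact Helper39.FX.MM_add a b

/-- FX-9 -/
theorem MM_ev [IsProbabilityMeasure μ] (a b : ℤ) : MM μ a (ev μ b) = ev μ (a + b) := by
  exact Helper39.FX.MM_ev a b

/-- FX-9 -/
theorem inner_ev [IsProbabilityMeasure μ] (a b : ℤ) : ⟪ev μ a, ev μ b⟫_ℂ = ft μ (b - a) := by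
  exact Helper39.FX.inner_ev a b

/-- FX-9 -/
theorem norm_ev [IsProbabilityMeasure μ] (a : ℤ) : ‖ev μ a‖ = 1 := by
  exact Helper39.FX.norm_ev a

/-- FX-9 -/
theorem ev_coe [IsProbabilityMeasure μ] (a : ℤ) :
    (ev μ a : Tor → ℂ) =ᵐ[μ] fun x => (fourier a x : ℂ) := by
  exact Helper39.FX.ev_coe a

/-- FX-9 -/
theorem span_ev [IsProbabilityMeasure μ] :
    (Submodule.span ℂ (Set.range (ev μ))).topologicalClosure = ⊤ := by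
  exact Helper39.FX.span_ev 

/-- FX-11 -/
theorem exists_square [IsProbabilityMeasure μ] (h2 : MeasurePreserving (T 2) μ μ)
    (h3 : MeasurePreserving (T 3) μ μ) :
    ∃ ρ : Measure Tor, IsProbabilityMeasure ρ ∧ (∀ n, ft ρ n = ((‖ft μ n‖ ^ 2 : ℝ) : ℂ)) ∧
      MeasurePreserving (T 2) ρ ρ ∧ MeasurePreserving (T 3) ρ ρ := by
  exact Helper28.FX.exists_square h2 h3

/-- FX-11 -/
theorem exists_measure {q : ℤ → ℂ} (hq : PDZ q) (h0 : q 0 = 1) (h2 : ∀ n, q (2 * n) = q n)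
    (h3 : ∀ n, q (3 * n) = q n) :
    ∃ ν : Measure Tor, IsProbabilityMeasure ν ∧ (∀ n, ft ν n = q n) ∧
      MeasurePreserving (T 2) ν ν ∧ MeasurePreserving (T 3) ν ν := by
  exact Helper28.FX.exists_measure hq h0 h2 h3

/-- FX-11 -/
theorem pdz_ft [IsProbabilityMeasure μ] (h2 : MeasurePreserving (T 2) μ μ)
    (h3 : MeasurePreserving (T 3) μ μ) :
    PDZ (ft μ) ∧ ft μ 0 = 1 ∧ (∀ n, ft μ (2 * n) = ft μ n) ∧ (∀ n, ft μ (3 * n) = ft μ n) := by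
  exact Helper28.FX.pdz_ft h2 h3

/-- FX-16 -/
theorem inC_conj [IsProbabilityMeasure μ] (h2 : MeasurePreserving (T 2) μ μ)
    (h3 : MeasurePreserving (T 3) μ μ) {f : Tor → ℂ} (hf : InC h2 h3 f) :
    InC h2 h3 (fun x => conj (f x)) := by
  exact Helper78.FX.inC_conj h2 h3 hf

/-- FX-16 -/
theorem norm_PP_neg [IsProbabilityMeasure μ] (h2 : MeasurePreserving (T 2) μ μ)
    (h3 : MeasurePreserving (T 3) μ μ) (m : ℤ) :
    ‖PP (UU h2) (UU h3) (ev μ (-m))‖ = ‖PP (UU h2) (UU h3) (ev μ m)‖ := by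
  exact Helper78.FX.norm_PP_neg h2 h3 m

end Circle

/-- FX-21 -/
theorem finite_cover {X : Type*} [TopologicalSpace X] {p : ℕ × ℕ → X}
    (hK : IsCompact (closure (Set.range p))) (D : ℤ → ℕ → X → ℝ)
    (hDc : ∀ n M, Continuous (D n M))
    (hD : ∀ n : ℤ, ∀ η : ℝ, 0 < η → ∀ ε : ℝ, 0 < ε → ∃ M : ℕ, 1 ≤ M ∧
      Up {s | η < D n M (p s)} ε)
    (𝒱 : Set (Set X)) (h𝒱 : ∀ W ∈ 𝒱, IsOpen W)
    (hcov : ∀ q ∈ closure (Set.range p),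
      (∀ n : ℤ, ∀ η : ℝ, 0 < η → ∃ M : ℕ, 1 ≤ M ∧ D n M q ≤ η) → ∃ W ∈ 𝒱, q ∈ W)
    {ε : ℝ} (hε : 0 < ε) :
    ∃ F : Finset (Set X), (∀ W ∈ F, W ∈ 𝒱) ∧ Up {s | ∀ W ∈ F, p s ∉ W} ε := by
  exact Helper32.FX.finite_cover hK D hDc hD 𝒱 h𝒱 hcov hε

end Helper58.FX.St

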