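import Mathlib
import Pool.Agent.Helper58.FX.P.Me
import Pool.Agent.Helper58.FX.P.PPBdd
import Pool.Agent.Helper58.FX.P.Return

set_option autoImplicit false
set_option linter.all false
open MeasureTheory Filter Topology Helper17.LevelSets
open scoped InnerProductSpace ComplexConjugate ENNReal

/-! Proved pieces of project FX, level 1. -/

namespace Helper58.FX.St
open Helper58.FX

/-! ## A. Abstract Hilbert space -/

section Hilbert

variable {H : Type*} [NormedAddCommGroup H] [InnerProductSpace ℂ H] [CompleteSpace H]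
  {U V : H →ₗᵢ[ℂ] H}

/-- FX-6 -/
theorem compact_of_return (hUV : Commute U V) {v : H} (hv : ‖v‖ = 1)
    (h : ∃ ε : ℝ, 0 < ε ∧ ∀ η : ℝ, 0 < η → ¬ Up {s | ‖⟪v, act U V s v⟫_ℂ - 1‖ < η} ε) :
    v ∈ Hc U V := by
  exact Helper58.FXP.H81.compact_of_return hUV hv h

end Hilbert

/-! ## B. Densities -/

/-! ## C. The circle -/

section Circle

variable {μ : Measure Tor}

/-- FX-10 -/
theorem me [IsProbabilityMeasure μ] (h2 : MeasurePreserving (T 2) μ μ)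
    (h3 : MeasurePreserving (T 3) μ μ) (n : ℤ) :
    ∃ E : ℝ, Tendsto (fun L => EE (fun j => ft μ (n * j)) L) atTop (𝓝 (E : ℂ)) ∧
      Tendsto (fun N : ℕ => (∑ s ∈ box N, ft μ (n * (sc s - 1))) / (N : ℂ) ^ 2) atTop
        (𝓝 (E : ℂ)) ∧
      ‖ft μ n‖ ^ 2 ≤ E ∧ ∀ M : ℕ, 1 ≤ M → E ≤ (EE (fun j => ft μ (n * j)) M).re := by
  exact Helper58.FXP.H43.me h2 h3 n

/-- FX-18 -/
theorem PP_bdd [IsProbabilityMeasure μ] (h2 : MeasurePreserving (T 2) μ μ)
    (h3 : MeasurePreserving (T 3) μ μ) {v : Lp ℂ 2 μ} (hv : ∀ᵐ x ∂μ, ‖v x‖ ≤ 1) :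
    ∀ᵐ x ∂μ, ‖(PP (UU h2) (UU h3) v : Tor → ℂ) x‖ ≤ 1 := by
  exact Helper58.FXP.H11.PP_bdd h2 h3 hv

end Circle

end Helper58.FX.St

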