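import Mathlib
import Pool.Agent.Helper58.FX.P.ApproxErg
import Pool.Agent.Helper58.FX.P.ConstInv

set_option autoImplicit false
set_option linter.all false
open MeasureTheory Filter Topology Helper17.LevelSets
open scoped InnerProductSpace ComplexConjugate ENNReal

/-! Proved pieces of project FX, level 2. -/

namespace Helper58.FX.St
open Helper58.FX

/-! ## A. Abstract Hilbert space -/

section Hilbert

variable {H : Type*} [NormedAddCommGroup H] [InnerProductSpace ℂ H] [CompleteSpace H]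
  {U V : H →ₗᵢ[ℂ] H}

end Hilbert

/-! ## B. Densities -/

/-! ## C. The circle -/

section Circle

variable {μ : Measure Tor}

/-- FX-12 -/
theorem approx_erg [IsProbabilityMeasure μ] (h2 : MeasurePreserving (T 2) μ μ)
    (h3 : MeasurePreserving (T 3) μ μ) (hE : Erg (ft μ)) (n : ℤ) {η ε : ℝ} (hη : 0 < η)
    (hε : 0 < ε) :
    ∃ M : ℕ, 1 ≤ M ∧ Up {s | η < (EE (fun j => ft μ (n * j * (sc s - 1))) M).re -
      ‖ft μ (n * (sc s - 1))‖ ^ 2} ε := by
  exact Helper58.FXP.H26.approx_erg h2 h3 hE n hη hε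

/-- FX-14 -/
theorem const_of_inv [IsProbabilityMeasure μ] (h2 : MeasurePreserving (T 2) μ μ)
    (h3 : MeasurePreserving (T 3) μ μ) (hE : Erg (ft μ)) (v : Lp ℂ 2 μ)
    (hv2 : UU h2 v = v) (hv3 : UU h3 v = v) : ∃ c : ℂ, v = c • ev μ 0 := by
  exact Helper58.FXP.H85.const_of_inv h2 h3 hE v hv2 hv3

/-- FX-14 -/
theorem atom_one [IsProbabilityMeasure μ] (h2 : MeasurePreserving (T 2) μ μ)
    (h3 : MeasurePreserving (T 3) μ μ) (hE : Erg (ft μ)) {x : Tor} (hx : μ {x} ≠ 0) :
    ∃ m : ℕ, 1 ≤ m ∧ ft μ m = 1 := by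
  exact Helper58.FXP.H85.atom_one h2 h3 hE hx

end Circle

end Helper58.FX.St

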