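import Mathlib
import Pool.Agent.Helper58.FX.P.Classify
import Pool.Agent.Helper58.FX.P.NormConst

set_option autoImplicit false
set_option linter.all false
open MeasureTheory Filter Topology Helper17.LevelSets
open scoped InnerProductSpace ComplexConjugate ENNReal

/-! Proved pieces of project FX, level 3. -/

namespace Helper58.FX.St
open Helper58.FX

/-! ## A. Abstract Hilbert space -/

section Hilbert

variable {H : Type*} [NormedAddCommGroup H] [InnerProductSpace ℂ H] [CompleteSpace H]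
  {U V : H →ₗᵢ[ℂ] H}

end Hilbert

/-! ## B. Densities -/

/-! ## C. The circle -/

section Circle

variable {μ : Measure Tor}

/-- FX-15 -/
theorem norm_const [IsProbabilityMeasure μ] (h2 : MeasurePreserving (T 2) μ μ)
    (h3 : MeasurePreserving (T 3) μ μ) (hE : Erg (ft μ)) {α β : ℂ} {v : Lp ℂ 2 μ}
    (hv : v ∈ Eg (UU h2) (UU h3) α β) : ∃ c : ℝ, ∀ᵐ x ∂μ, ‖v x‖ = c := by
  exact Helper58.FXP.H5.norm_const h2 h3 hE hv

/-- FX-15 -/
theorem fd_Eg [IsProbabilityMeasure μ] (h2 : MeasurePreserving (T 2) μ μ)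
    (h3 : MeasurePreserving (T 3) μ μ) (hE : Erg (ft μ)) (α β : ℂ) :
    FiniteDimensional ℂ (Eg (UU h2) (UU h3) α β) := by
  exact Helper58.FXP.H5.fd_Eg h2 h3 hE α β

/-- FX-20 -/
theorem classify {p : ℕ × ℕ → ℤ → ℂ}
    (hp : ∀ s, PDZ (p s) ∧ p s 0 = 1 ∧ (∀ n, p s (2 * n) = p s n) ∧ ∀ n, p s (3 * n) = p s n)
    {q : ℤ → ℂ} (hq : q ∈ closure (Set.range p))
    (hD : ∀ n : ℤ, ∀ η : ℝ, 0 < η → ∃ M : ℕ, 1 ≤ M ∧
      (EE (fun j => q (n * j)) M).re - ‖q n‖ ^ 2 ≤ η) :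
    (∀ n : ℤ, n ≠ 0 → q n = 0) ∨ (∃ m : ℕ, 1 ≤ m ∧ q m = 1) ∨ ExLike q := by
  exact Helper58.FXP.H81.classify hp hq hD

end Circle

end Helper58.FX.St

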