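import Mathlib
import Pool.Agent.Helper58.FX.P.Chain
import Pool.Agent.Helper58.FX.P.Classes
import Pool.Agent.Helper58.FX.P.InCMul

set_option autoImplicit false
set_option linter.all false
open MeasureTheory Filter Topology Helper17.LevelSets
open scoped InnerProductSpace ComplexConjugate ENNReal

/-! Proved pieces of project FX, level 4. -/

namespace Helper58.FX.St
open Helper58.FX

/-! ## A. Abstract Hilbert space -/

section Hilbert

variable {H : Type*} [NormedAddCommGroup H] [InnerProductSpace ℂ H] [CompleteSpace H]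
  {U V : H →ₗᵢ[ℂ] H}

end Hilbert

/-! ## B. Densities -/

/-! ## C. The circle -/

section Circle

variable {μ : Measure Tor}

/-- FX-17 -/
theorem inC_mul [IsProbabilityMeasure μ] (h2 : MeasurePreserving (T 2) μ μ)
    (h3 : MeasurePreserving (T 3) μ μ) (hE : Erg (ft μ)) {f g : Tor → ℂ} (hf : InC h2 h3 f)
    (hb : ∃ C : ℝ, ∀ᵐ x ∂μ, ‖f x‖ ≤ C) (hg : InC h2 h3 g) :
    InC h2 h3 (fun x => f x * g x) := by
  exact Helper58.FXP.H71.inC_mul h2 h3 hE hf hb hg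

/-- FX-22 -/
theorem classes [IsProbabilityMeasure μ] (h2 : MeasurePreserving (T 2) μ μ)
    (h3 : MeasurePreserving (T 3) μ μ) (hE : Erg (ft μ)) (hI : Iso (ft μ))
    (hNA : ∀ m : ℕ, 1 ≤ m → ∀ ε : ℝ, 0 < ε → ∃ η : ℝ, 0 < η ∧
      Up {s | ‖ft μ (m * (sc s - 1)) - 1‖ < η} ε)
    (n : ℤ) (hn : n ≠ 0) (r : ℝ) (hr : 0 < r) (ε : ℝ) (hε : 0 < ε) :
    ∃ C : Set (ℤ → ℂ), C.Finite ∧
      Up {s | (fun k : ℤ => ft μ (k * (sc s - 1))) ∉ C ∧ r ≤ ‖ft μ (n * (sc s - 1))‖} ε := by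
  exact Helper58.FXP.H61.classes h2 h3 hE hI hNA n hn r hr ε hε

/-- FX-23 -/
theorem chain [IsProbabilityMeasure μ] (h2 : MeasurePreserving (T 2) μ μ)
    (h3 : MeasurePreserving (T 3) μ μ) (hna : ∀ x : Tor, μ {x} = 0) {m : ℕ} (hm : 1 ≤ m)
    (hc : ev μ m ∈ Hc (UU h2) (UU h3)) {W : Set (ℤ → ℂ)} (hW : IsOpen W) (hμW : ft μ ∈ W)
    (hiso : ∀ k : ℕ, dil (ft μ) ((k : ℤ) + 1) ∈ W → dil (ft μ) ((k : ℤ) + 1) = ft μ)
    (n : ℤ) (hn : n ≠ 0) : ft μ n = 0 := by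
  exact Helper58.FXP.H74.chain h2 h3 hna hm hc hW hμW hiso n hn

end Circle

end Helper58.FX.St

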