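import Mathlib
import Pool.Agent.Helper58.FX.P.MainIneq
import Pool.Agent.Helper58.FX.P.Upgrade

set_option autoImplicit false
set_option linter.all false
open MeasureTheory Filter Topology Helper17.LevelSets
open scoped InnerProductSpace ComplexConjugate ENNReal

/-! Proved pieces of project FX, level 5. -/

namespace Helper58.FX.St
open Helper58.FX

/-! ## A. Abstract Hilbert space -/

section Hilbert

variable {H : Type*} [NormedAddCommGroup H] [InnerProductSpace ℂ H] [CompleteSpace H]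
  {U V : H →ₗᵢ[ℂ] H}

/-- FX-8 (main inequality) -/
theorem main_ineq (hUV : Commute U V) (M : ℤ → (H →ₗᵢ[ℂ] H)) (hM0 : M 0 = 1)
    (hMadd : ∀ a b, M (a + b) = M a * M b)
    (hact : ∀ s n, act U V s * M n = M (sc s * n) * act U V s)
    (one : H) (h1 : ‖one‖ = 1) (hU1 : U one = one) (hV1 : V one = one)
    (hfd : ∀ α β : ℂ, FiniteDimensional ℂ (Eg U V α β))
    (hsym : ∀ m : ℤ, ‖PP U V (M (-m) one)‖ = ‖PP U V (M m one)‖) (n : ℤ)
    (hcl : ∀ r : ℝ, 0 < r → ∀ ε : ℝ, 0 < ε → ∃ C : Set (ℤ → ℂ), C.Finite ∧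
      Up {s | (fun k : ℤ => ⟪one, M (k * (sc s - 1)) one⟫_ℂ) ∉ C ∧
        r ≤ ‖⟪one, M (n * (sc s - 1)) one⟫_ℂ‖} ε) :
    M (-n) (PP U V (M n one)) ∈ Hc U V := by
  exact Helper58.FXP.MI.main_ineq hUV M hM0 hMadd hact one h1 hU1 hV1 hfd hsym n hcl

end Hilbert

/-! ## B. Densities -/

/-! ## C. The circle -/

section Circle

variable {μ : Measure Tor}

/-- FX-19 -/
theorem upgrade [IsProbabilityMeasure μ] (h2 : MeasurePreserving (T 2) μ μ)
    (h3 : MeasurePreserving (T 3) μ μ) (hE : Erg (ft μ)) (n : ℤ)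
    (hn : PP (UU h2) (UU h3) (ev μ n) ≠ 0)
    (hc : MM μ (-n) (PP (UU h2) (UU h3) (ev μ n)) ∈ Hc (UU h2) (UU h3)) :
    ev μ n ∈ Hc (UU h2) (UU h3) := by
  exact Helper58.FXP.H11.upgrade h2 h3 hE n hn hc

end Circle

end Helper58.FX.St

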