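import Mathlib
import Pool.Agent.Helper58.FX.Defs2
import Pool.Agent.Helper88.FX.Wiener
import Pool.Agent.Helper73.FX.ZeroExt
import Pool.Agent.Helper66.FX.FinitePeriod
import Pool.Agent.Helper63.FX.ExistsExp
import Pool.Agent.Helper58.FX.P.ExLikeOfMeasure
import Pool.Agent.Helper58.FX.P.AtomBound
import Pool.Agent.Helper40.FX.FdPeriod

set_option autoImplicit false
set_option linter.all false
open MeasureTheory Filter Topology Helper17.LevelSets Helper17.FU Helper17.FUGroup Helper91.TTT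
open scoped InnerProductSpace ComplexConjugate ENNReal ComplexOrder

/-! Proved pieces of the converse (project FX, MP_81910f_an), second batch CV. -/

namespace Helper58.FX.St
open Helper58.FX

/-- CV-1 -/
theorem atom_bound {f : ℤ → ℂ} (hf : IPD f) (hE : Erg f) (hne : f ≠ fun _ => 1)
    {ν : Measure Helper58.FX.Tor} [IsProbabilityMeasure ν] (hν : ∀ n, ft ν n = f n)
    (x : Helper58.FX.Tor) : ν.real {x} ≤ 1 - (f 1).re := by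
  exact Helper58.FXP.H52.atom_bound hf hE hne hν x

/-- CV-2 -/
theorem wiener_le {ν : Measure Helper58.FX.Tor} [IsProbabilityMeasure ν] {κ : ℝ}
    (hκ : ∀ x, ν.real {x} ≤ κ) {ε : ℝ} (hε : 0 < ε) :
    ∀ᶠ L : ℕ in atTop, ∑ n ∈ Finset.range L, ‖ft ν n‖ ^ 2 ≤ (κ + ε) * L := by
  exact Pool.Agent.Helper88.FX.wiener_le hκ hε

/-- CV-2 -/
theorem nonatomic_of_wiener {ν : Measure Helper58.FX.Tor} [IsProbabilityMeasure ν]
    (h : Tendsto (fun L : ℕ => (∑ n ∈ Finset.range L, ‖ft ν n‖ ^ 2) / (L : ℝ)) atTop (𝓝 0)) :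
    ∀ x, ν {x} = 0 := by
  exact Pool.Agent.Helper88.FX.nonatomic_of_wiener h

/-- CV-3 -/
theorem exists_exp (f : ℕ → ℤ → ℂ) (hf : ∀ i, IPD (f i))
    (hs : Summable (fun i => 1 - (f i 1).re)) :
    ∃ F : ℤ → ℂ, IPD F ∧ ∀ n, Summable (fun i => 1 - (f i n).re) ∧
      F n = ((Real.exp (-∑' i, (1 - (f i n).re)) : ℝ) : ℂ) := by
  exact Helper63.FX.exists_exp f hf hs

/-- CV-4 -/
theorem exists_exlike {ν : Measure Helper58.FX.Tor} [IsProbabilityMeasure ν]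
    (h2 : MeasurePreserving (T 2) ν ν) (h3 : MeasurePreserving (T 3) ν ν)
    (hna : ∀ x, ν {x} = 0) (hne : ∃ n : ℤ, n ≠ 0 ∧ ft ν n ≠ 0) : ∃ q : ℤ → ℂ, ExLike q := by
  exact Helper58.FXP.H77.exists_exlike h2 h3 hna hne

/-- CV-7 -/
theorem finite_period {q : ℕ} (hq : 1 ≤ q) :
    {f : ℤ → ℂ | IPD f ∧ Erg f ∧ f q = 1}.Finite := by
  exact Helper66.FX.finite_period hq

variable {s2 s3 t : Equiv.Perm ℚ}

/-- CV-5 -/
theorem zero_ext (h2 : ∀ x : ℚ, s2 x = 2 * x) (h3 : ∀ x : ℚ, s3 x = 3 * x)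
    (ht : ∀ x : ℚ, t x = x + 1) {τ : GG s2 s3 t} (hτ : (τ : Equiv.Perm ℚ) = t)
    {q : ℤ → ℂ} (hq : IPD q) :
    ∃ φ : GG s2 s3 t → ℂ, φ ∈ TR (GG s2 s3 t) ∧ (∀ g, ¬ IsTr g → φ g = 0) ∧
      ∀ n : ℤ, φ (τ ^ n) = q n := by
  exact Helper73.FX.zero_ext h2 h3 ht hτ hq

/-- CV-6 -/
theorem fd_period (h2 : ∀ x : ℚ, s2 x = 2 * x) (h3 : ∀ x : ℚ, s3 x = 3 * x)
    (ht : ∀ x : ℚ, t x = x + 1) {τ : GG s2 s3 t} (hτ : (τ : Equiv.Perm ℚ) = t)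
    {φ : GG s2 s3 t → ℂ} (hφ : φ ∈ Set.extremePoints ℝ (TR (GG s2 s3 t)))
    (hfd : FiniteDimensional ℂ (Submodule.span ℂ {F : GG s2 s3 t → ℂ | ∃ n : GG s2 s3 t,
      IsTr n ∧ F = fun x => φ (n * x)})) :
    ∃ q : ℕ, 1 ≤ q ∧ φ (τ ^ (q : ℤ)) = 1 := by
  exact Helper40.FX.fd_period h2 h3 ht hτ hφ hfd

/-- CV-6 -/
theorem ipd_erg (h2 : ∀ x : ℚ, s2 x = 2 * x) (h3 : ∀ x : ℚ, s3 x = 3 * x)
    (ht : ∀ x : ℚ, t x = x + 1) {τ : GG s2 s3 t} (hτ : (τ : Equiv.Perm ℚ) = t)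
    {φ : GG s2 s3 t → ℂ} (hφ : φ ∈ Set.extremePoints ℝ (TR (GG s2 s3 t))) (k : ℤ) :
    IPD (fun n : ℤ => φ (τ ^ (k * n))) ∧ Erg (fun n : ℤ => φ (τ ^ (k * n))) := by
  exact Helper40.FX.ipd_erg h2 h3 ht hτ hφ k

end Helper58.FX.St

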