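import Mathlib
import Pool.Agent.Helper58.FX.Defs2
import Pool.Agent.Helper58.FX.Re.R7
import Pool.Agent.Helper58.FX.P.EventuallyOne

set_option autoImplicit false
set_option linter.all false
open MeasureTheory Filter Topology Helper17.LevelSets Helper17.FU Helper17.FUGroup Helper91.TTT
open scoped InnerProductSpace ComplexConjugate ENNReal ComplexOrder

/-! Proved pieces of the converse (project FX, MP_81910f_an), second batch CV. -/

namespace Helper58.FX.St
open Helper58.FX

/-- CV-8: sequences tending to the trivial function -/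
theorem eventually_one (hno : ¬ ∃ q : ℤ → ℂ, ExLike q) (f : ℕ → ℤ → ℂ) (hf : ∀ i, IPD (f i))
    (hE : ∀ i, Erg (f i)) (hlim : ∀ n, Tendsto (fun i => f i n) atTop (𝓝 1)) :
    ∀ᶠ i in atTop, f i = fun _ => 1 := by
  exact Helper58.FXP.H83.eventually_one hno f hf hE hlim

variable {s2 s3 t : Equiv.Perm ℚ}

end Helper58.FX.St

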